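import Mathlib
import Pool.Agent.Y511.LD.Final

/-!
# A second choice of `V` in the construction of `Y511.LD`

There `V = z Δ ^ p + G ^ p` with `deg G > deg Δ`; here `deg G < deg Δ`, so that `deg V = p deg Δ + 1`.
-/

set_option autoImplicit false
set_option linter.unusedSectionVars false

namespace Pool.Agent.W2helper79.L3

open Polynomial Finset LinearAlgebra.Projectivization
open Pool.Agent Pool.Agent.Y511 Pool.Agent.Y511.LD

variable {p : ℕ} [Fact p.Prime] {k : Type*} [Field k] [Algebra (ZMod p) k] {n : ℕ}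

lemma exists_V [IsAlgClosed k] {u : (Fin n → ZMod p) →ₗ[ZMod p] k[X]} {d : ℕ}
    (h : Good u d) : ∃ V : k[X], derivative V = (Del u) ^ p ∧
    V.natDegree = p * (Fintype.card (PP p n) * d) + 1 ∧
    ∀ (c : Fin n → ZMod p) (l : PP p n), dp c l.rep = 1 → (u l.rep) ^ p ∣ V - ww u c := by
  classical
  have hp2 := (Fact.out : p.Prime).two_le
  have : CharP k p := charP_k p k
  have hch : ∀ l : PP p n, ∃ c : Fin n → ZMod p, dp c l.rep = 1 := by
    intro l
    obtain ⟨e, he⟩ := exists_dp l.rep l.rep_nonzero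
    exact ⟨e, by rw [dp_comm]; exact he⟩
  choose cc hcc using hch
  have hcc0 : ∀ l, cc l ≠ 0 := by
    intro l h0
    have := hcc l
    rw [h0, dp_comm, map_zero] at this
    exact zero_ne_one this
  have hτ : ∀ l : PP p n, ∃ τ : k[X], τ ^ p = ww u (cc l) := by
    intro l
    obtain ⟨ε, -, hε⟩ := ww_eq u h.inj (cc l) (hcc0 l)
    obtain ⟨η, hη⟩ := IsAlgClosed.exists_pow_nat_eq ε (show 0 < p by omega)
    refine ⟨C η * ∏ l' ∈ univ.filter (fun l' : PP p n => dp (cc l) l'.rep = 0), u l'.rep, ?_⟩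
    rw [mul_pow, ← C_pow, hη, hε]
  choose τ hτ using hτ
  obtain ⟨G0, hG0⟩ := Ideal.exists_forall_sub_mem_ideal
    (I := fun l : PP p n => Ideal.span {u l.rep}) (by
      intro l l' hl
      change IsCoprime (Ideal.span {u l.rep}) (Ideal.span {u l'.rep})
      rw [Ideal.isCoprime_span_singleton_iff]
      exact h.cop l l' hl) τ
  set G := G0 % Del u with hG
  have hdiv : ∀ l : PP p n, u l.rep ∣ G - τ l := by
    intro l
    have h1 : u l.rep ∣ G0 - τ l := by
      have := hG0 l
      rwa [Ideal.mem_span_singleton] at this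
    have h2 : u l.rep ∣ Del u := Finset.dvd_prod_of_mem (fun l : PP p n => u l.rep) (mem_univ l)
    have h3 : G0 = Del u * (G0 / Del u) + G := (EuclideanDomain.div_add_mod G0 (Del u)).symm
    have h4 : G - τ l = (G0 - τ l) + Del u * (-(G0 / Del u)) := by
      linear_combination -h3
    rw [h4]
    exact dvd_add h1 (h2.mul_right _)
  have hdel := h.Del_ne
  have hGdeg : G.natDegree ≤ Fintype.card (PP p n) * d := by
    rw [← h.Del_deg]
    exact natDegree_le_natDegree (Polynomial.degree_mod_lt G0 hdel).le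
  refine ⟨X * (Del u) ^ p + G ^ p, ?_, ?_, ?_⟩
  · rw [derivative_add, derivative_mul, der_pow_p, der_pow_p, derivative_X]
    ring
  · have h1 : (X * (Del u) ^ p : k[X]).natDegree = p * (Fintype.card (PP p n) * d) + 1 := by
      rw [natDegree_mul X_ne_zero (pow_ne_zero _ hdel), natDegree_X, natDegree_pow, h.Del_deg]
      ring
    rw [← h1]
    apply natDegree_add_eq_left_of_natDegree_lt
    rw [h1, natDegree_pow]
    have := Nat.mul_le_mul_left p hGdeg
    omega
  · intro c l hl
    have h1 : X * (Del u) ^ p + G ^ p - ww u c =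
        X * (Del u) ^ p + (G - τ l) ^ p - ww u (c - cc l) := by
      rw [map_sub, sub_pow_char, hτ]
      ring
    rw [h1]
    refine dvd_sub (dvd_add (Dvd.dvd.mul_left ?_ _) ?_) ?_
    · exact pow_dvd_pow_of_dvd
        (Finset.dvd_prod_of_mem (fun l : PP p n => u l.rep) (mem_univ l)) _
    · exact pow_dvd_pow_of_dvd (hdiv l) _
    · apply h.ww_dvd
      rw [dp_comm, map_sub, dp_comm, hl, dp_comm, hcc, sub_self]

/-- the main identity -/
lemma exists_P [IsAlgClosed k] {n : ℕ} {u : (Fin (n + 2) → ZMod p) →ₗ[ZMod p] k[X]} {d : ℕ}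
    (h : Good u d) (w : ℕ) (hw : p * (Fintype.card (PP p (n + 2)) * d) < w) (V : k[X]) (hV1 : derivative V = (Del u) ^ p)
    (hV2 : V.natDegree = w)
    (hV3 : ∀ (c : Fin (n + 2) → ZMod p) (l : PP p (n + 2)), dp c l.rep = 1 →
      (u l.rep) ^ p ∣ V - ww u c) (x : Fin (n + 2) → ZMod p) (hx : x ≠ 0) :
    ∃ P : k[X], P ≠ 0 ∧
      P.natDegree + p ^ (2 * n + 2) * (p * d) =
        (p ^ (n + 2) - p ^ (n + 1)) * w ∧
      (∑ c, algebraMap (ZMod p) (RatFunc k) (dp x c) *
        (algebraMap k[X] (RatFunc k) V - rf (ww u) c)⁻¹) *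
          algebraMap k[X] (RatFunc k) (Del u ^ p) = (algebraMap k[X] (RatFunc k) P)⁻¹ := by
  classical
  have hp2 := (Fact.out : p.Prime).two_le
  set φ := algebraMap k[X] (RatFunc k) with hφ
  have hφ0 : ∀ Q : k[X], Q ≠ 0 → φ Q ≠ 0 := by
    intro Q hQ
    rw [hφ, ne_eq, FaithfulSMul.algebraMap_eq_zero_iff]
    exact hQ
  obtain ⟨e, he⟩ := exists_dp x hx
  have hdeg : ∀ c, (V - ww u c).natDegree = w := by
    intro c
    rw [← hV2]
    apply natDegree_sub_eq_left_of_natDegree_lt
    rw [hV2]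
    exact lt_of_le_of_lt (h.ww_deg c) hw
  have hne : ∀ c, V - ww u c ≠ 0 := by
    intro c h0
    have := hdeg c
    rw [h0, natDegree_zero] at this
    omega
  -- the cofactors
  have hM : ∀ c, ∃ Q : k[X], V - ww u c =
      (∏ l ∈ univ.filter (fun l : PP p (n + 2) => dp c l.rep = 1), (u l.rep) ^ p) * Q := by
    intro c
    apply Finset.prod_dvd_of_coprime
    · intro l _ l' _ hl
      exact (h.cop l l' hl).pow
    · intro l hl
      exact hV3 c l (by simpa using hl)
  choose Q hQ using hM
  set S := univ.filter (fun c => dp x c ≠ 0) with hS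
  set R := Del u ^ p * (∏ c ∈ (univ.filter (fun c => dp x c = 0)).erase 0, (-ww u c)) *
    (∏ c ∈ univ.filter (fun c => dp x c = 1), ww u c) ^ (p - 2) with hR
  set W := ∏ l : PP p (n + 2), ((u l.rep) ^ p) ^ N1 x l with hW
  have hW0 : W ≠ 0 := Finset.prod_ne_zero_iff.2 fun l _ =>
    pow_ne_zero _ (pow_ne_zero _ (h.ne l.rep_nonzero))
  have hRW : Associated R W := by
    have h1 : W = (Del u ^ p * ∏ l : PP p (n + 2), ((u l.rep) ^ p) ^ N2 x l) *
        (∏ l : PP p (n + 2), ((u l.rep) ^ p) ^ N3 x l) ^ (p - 2) := by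
      rw [hW, Del, ← Finset.prod_pow, ← Finset.prod_mul_distrib, ← Finset.prod_pow,
        ← Finset.prod_mul_distrib]
      apply Finset.prod_congr rfl
      intro l _
      rw [N_rel x hx l, pow_add, pow_add, pow_one, mul_comm (p - 2), pow_mul]
    rw [h1, hR]
    refine Associated.mul_mul (Associated.mul_mul (Associated.refl _) ?_) (Associated.pow_pow ?_)
    · have h2 := swap_prod (S := (univ.filter (fun c => dp x c = 0)).erase 0) u
        (fun c l => dp c l.rep = 0)
      have h3 : ∏ l : PP p (n + 2), ((u l.rep) ^ p) ^ N2 x l =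
          ∏ c ∈ (univ.filter (fun c => dp x c = 0)).erase 0,
            ∏ l ∈ univ.filter (fun l : PP p (n + 2) => dp c l.rep = 0), (u l.rep) ^ p := by
        rw [h2]
        rfl
      rw [h3]
      apply Associated.prod
      intro c hc
      exact Associated.neg_left (Good.ww_assoc' h c (Finset.mem_erase.1 hc).1)
    · have h2 := swap_prod (S := univ.filter (fun c => dp x c = 1)) u
        (fun c l => dp c l.rep = 0)
      have h3 : ∏ l : PP p (n + 2), ((u l.rep) ^ p) ^ N3 x l =
          ∏ c ∈ univ.filter (fun c => dp x c = 1),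
            ∏ l ∈ univ.filter (fun l : PP p (n + 2) => dp c l.rep = 0), (u l.rep) ^ p := by
        rw [h2]
        rfl
      rw [h3]
      apply Associated.prod
      intro c hc
      apply Good.ww_assoc' h c
      rintro rfl
      have hc2 : dp x (0 : Fin (n + 2) → ZMod p) = 1 := by simpa using hc
      rw [map_zero] at hc2
      exact zero_ne_one hc2
  obtain ⟨v, hv⟩ := hRW
  have hprod : ∏ c ∈ S, (V - ww u c) = W * ∏ c ∈ S, Q c := by
    rw [Finset.prod_congr rfl fun c _ => hQ c, Finset.prod_mul_distrib,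
      swap_prod (S := S) u (fun c l => dp c l.rep = 1)]
    congr 1
    apply Finset.prod_congr rfl
    intro l _
    rw [N1, hS, Finset.filter_filter]
  have hprod0 : ∏ c ∈ S, (V - ww u c) ≠ 0 := Finset.prod_ne_zero_iff.2 fun c _ => hne c
  have hQ0 : ∏ c ∈ S, Q c ≠ 0 := by
    intro h0
    rw [hprod, h0, mul_zero] at hprod0
    exact hprod0 rfl
  have hR0 : R ≠ 0 := by
    intro h0
    rw [h0, zero_mul] at hv
    exact hW0 hv.symm
  have hmain := main_sum (rf (ww u)) (rf_injective (ww u) h.ww_inj) (dp x) e he (φ V) (by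
    intro c _
    rw [rf_apply, ← hφ, ← map_sub]
    exact hφ0 _ (hne c))
  refine ⟨-(v * ∏ c ∈ S, Q c), ?_, ?_, ?_⟩
  · rw [neg_ne_zero]
    exact mul_ne_zero v.ne_zero hQ0
  · rw [natDegree_neg, natDegree_mul v.ne_zero hQ0, natDegree_eq_zero_of_isUnit v.isUnit, zero_add]
    have h1 : (∏ c ∈ S, (V - ww u c)).natDegree =
        S.card * w := by
      rw [natDegree_prod _ _ fun c _ => hne c, Finset.sum_congr rfl fun c _ => hdeg c,
        Finset.sum_const, smul_eq_mul]
    have h2 : W.natDegree = p ^ (2 * n + 2) * (p * d) := by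
      rw [hW, natDegree_prod _ _ fun l _ => pow_ne_zero _ (pow_ne_zero _ (h.ne l.rep_nonzero))]
      have h3 : ∀ l ∈ (univ : Finset (PP p (n + 2))), (((u l.rep) ^ p) ^ N1 x l).natDegree =
          N1 x l * (p * d) := by
        intro l _
        rw [natDegree_pow, natDegree_pow, h.deg _ l.rep_nonzero]
      rw [Finset.sum_congr rfl h3, ← Finset.sum_mul, N1_sum x hx]
    have h4 : S.card = p ^ (n + 2) - p ^ (n + 1) := by
      have h5 := Finset.card_filter_add_card_filter_not (s := (univ : Finset (Fin (n + 2) → ZMod p)))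
        (fun c => dp x c = 0)
      rw [card_fib1 x hx 0, Finset.card_univ, card_E] at h5
      have h6 : S.card = (univ.filter (fun c => ¬ dp x c = 0)).card := rfl
      rw [h6]
      omega
    rw [← h4, ← h1, hprod, natDegree_mul hW0 hQ0, h2]
    ring
  · have h1 : (∑ c, algebraMap (ZMod p) (RatFunc k) (dp x c) * (φ V - rf (ww u) c)⁻¹) *
        φ (Del u ^ p) * φ (∏ c ∈ S, (V - ww u c)) = -φ R := by
      have h2 : φ (∏ c ∈ S, (V - ww u c)) = ∏ c ∈ S, (φ V - rf (ww u) c) := by
        rw [map_prod]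
        apply Finset.prod_congr rfl
        intro c _
        rw [map_sub, rf_apply]
      rw [h2, mul_right_comm, hmain, hR]
      simp only [map_mul, map_pow, map_prod, map_neg, zero_sub, rf_apply, hφ]
      ring
    rw [hprod, ← hv, map_mul, map_mul] at h1
    have h3 := hφ0 _ hR0
    have h4 := hφ0 _ v.ne_zero
    have h5 := hφ0 _ hQ0
    rw [map_neg, map_mul]
    apply eq_inv_of_mul_eq_one_left
    apply mul_left_cancel₀ h3
    linear_combination -h1

end Pool.Agent.W2helper79.L3
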