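import Mathlib
import Pool.Agent.W2helper79.L3.Fam

/-!
# The construction with `deg V = p deg Δ + 1`
-/

set_option autoImplicit false
set_option linter.unusedSectionVars false

namespace Pool.Agent.W2helper79.L3

open Polynomial Finset LinearAlgebra.Projectivization
open Pool.Agent Pool.Agent.Y511 Pool.Agent.Y511.LD

lemma degree_arith (p s d A N P : ℕ) (hp : 2 ≤ p) (hA : A + p ^ (s + 1) + 1 = p ^ (s + 2))
    (hN : N * (p - 1) + 1 = p ^ (s + 2))
    (hP : P + p ^ (2 * s + 2) * (p * d) = (p ^ (s + 2) - p ^ (s + 1)) * (p * (N * d) + 1)) :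
    P = p ^ (s + 1) * ((p - 1) + p * d * A) := by
  obtain ⟨q, rfl⟩ : ∃ q, p = q + 1 := ⟨p - 1, by omega⟩
  rw [Nat.add_sub_cancel] at hN ⊢
  set B := (q + 1) ^ (s + 1) with hB
  have h1 : (q + 1) ^ (s + 2) = B * (q + 1) := by rw [hB, ← pow_succ]
  have h2 : (q + 1) ^ (2 * s + 2) = B * B := by
    rw [hB, ← pow_add]
    congr 1
    ring
  have h3 : B * (q + 1) - B = B * q := by
    rw [mul_add, mul_one, Nat.add_sub_cancel]
  rw [h1] at hA hN
  rw [h1, h2, h3] at hP
  have h4 : N * q = A + B := by omega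
  have h5 : B * q * ((q + 1) * (N * d) + 1) = B * (q + (q + 1) * d * A) + B * B * ((q + 1) * d) := by
    calc B * q * ((q + 1) * (N * d) + 1) = B * (q + (q + 1) * d * (N * q)) := by ring
      _ = _ := by rw [h4]; ring
  rw [h5] at hP
  exact Nat.add_right_cancel hP

/-- the construction -/
theorem construction0 (p : ℕ) [Fact p.Prime] (k : Type*) [Field k] [IsAlgClosed k]
    [Algebra (ZMod p) k] (n d A : ℕ) (hd : 1 ≤ d) (hA : A + p ^ (n + 1) + 1 = p ^ (n + 2)) :
    ∃ F : (Fin (n + 2) → ZMod p) →ₗ[ZMod p] Ω[RatFunc k⁄k],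
      (∀ x, ∃ f : RatFunc k, f ≠ 0 ∧ F x = f⁻¹ • KaehlerDifferential.D k (RatFunc k) f) ∧
      ∀ x, x ≠ 0 → ∃ P : k[X], P ≠ 0 ∧
        P.natDegree = p ^ (n + 1) * ((p - 1) + p * d * A) ∧
        F x = (algebraMap k[X] (RatFunc k) P)⁻¹ • W515.LD.dX k := by
  have hp2 := (Fact.out : p.Prime).two_le
  have : Infinite k := IsAlgClosed.instInfinite
  obtain ⟨a, ha⟩ := exists_inj p k (n + 2)
  have hg := ud_good a ha d hd
  obtain ⟨V, hV1, hV2, hV3⟩ := exists_V hg
  refine ⟨form (ud a d) V, ?_, ?_⟩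
  · intro x
    obtain ⟨f, hf, hf2⟩ := form_log (ud a d) V (by
      intro c h0
      have h1 : V.natDegree ≤ p * (Fintype.card (PP p (n + 2)) * d) := by
        rw [sub_eq_zero] at h0
        rw [h0]
        exact hg.ww_deg c
      rw [hV2] at h1
      omega) x
    exact ⟨f, hf, hf2⟩
  · intro x hx
    obtain ⟨P, hP0, hP, hP2⟩ := exists_P hg _ (Nat.lt_succ_self _) V hV1 hV2 hV3 x hx
    refine ⟨P, hP0, ?_, ?_⟩
    · exact degree_arith p n d A _ _ hp2 hA (card_PP (p := p) (n + 2)).symm hP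
    · rw [form_eq hg V hV1, hP2]

end Pool.Agent.W2helper79.L3
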